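import Mathlib
import Pool.Agent.Lib.MP_2a816b_nt.Defs
import Pool.Agent.Lib.MP_2a816b_nt.WideE

/-!
# A power lower bound for the variance of primes in intervals of length `X^(1/3) ≤ H ≤ X^(1-ε)`
-/

namespace Pool.Agent.Results.MP_2a816b_nt.WideWindowLowerBound

open Pool.Agent.Lib.MP_2a816b_nt

/-- For every `ε > 0` there is `X₀` such that for all `X ≥ X₀` and all `X^(1/3) ≤ H ≤ X^(1-ε)` one has
`(1/X) ∫_{X/8}^X |ψ(x;H) - H|² dx ≥ X^(1/3-ε)`. -/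
theorem result (ε : ℝ) (hε : 0 < ε) :
    ∃ X₀ : ℝ, ∀ X : ℝ, X₀ ≤ X → ∀ H : ℝ, X ^ (1 / 3 : ℝ) ≤ H → H ≤ X ^ (1 - ε) →
      X ^ (1 / 3 - ε) ≤ (1 / X) * ∫ x in (X / 8)..X, |psiWindow x H - H| ^ 2 :=
  wide_final ε hε

end Pool.Agent.Results.MP_2a816b_nt.WideWindowLowerBound
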